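import Mathlib

set_option autoImplicit false

namespace Pool.Agent.Results.MP_253cbc_nt.FiberBound

/-- `g x = x σ(x)`. -/
def g (x : ℕ) : ℕ := x * ∑ d ∈ x.divisors, d

theorem g_mul {a b : ℕ} (h : a.Coprime b) : g (a * b) = g a * g b := by
  unfold g
  rw [Nat.Coprime.sum_divisors_mul h]; ring

theorem g_pos {a : ℕ} (h : 0 < a) : 0 < g a := by
  unfold g
  apply Nat.mul_pos h
  exact Finset.sum_pos (fun d hd => Nat.pos_of_mem_divisors hd) ⟨1, by simp [h.ne']⟩

theorem dvd_sigma (x : ℕ) : Squarefree x → ∀ P : ℕ, P.Prime → P ∣ ∑ d ∈ x.divisors, d →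
    ∃ q, q.Prime ∧ q ∣ x ∧ P ∣ q + 1 := by
  induction x using Nat.recOnPosPrimePosCoprime with
  | prime_pow p n hp hn =>
    intro hsq P hP hd
    have hn1 : n = 1 := by
      by_contra hne
      have h2 : 2 ≤ n := by omega
      have h3 : p * p ∣ p ^ n := by
        rw [← sq]; exact pow_dvd_pow p h2
      have := hsq p h3
      exact hp.one_lt.ne' (Nat.isUnit_iff.mp this)
    subst hn1
    rw [pow_one] at hd ⊢
    rw [Nat.Prime.sum_divisors hp] at hd
    exact ⟨p, hp, dvd_refl p, hd⟩
  | zero => intro h; exact absurd h (by simp)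
  | one =>
    intro _ P hP hd
    simp at hd
    exact absurd hd hP.one_lt.ne'
  | coprime a b ha hb hab iha ihb =>
    intro hsq P hP hd
    rw [Nat.Coprime.sum_divisors_mul hab] at hd
    rcases (hP.dvd_mul).mp hd with h | h
    · obtain ⟨q, h1, h2, h3⟩ := iha (hsq.squarefree_of_dvd (dvd_mul_right a b)) P hP h
      exact ⟨q, h1, h2.mul_right b, h3⟩
    · obtain ⟨q, h1, h2, h3⟩ := ihb (hsq.squarefree_of_dvd (dvd_mul_left b a)) P hP h
      exact ⟨q, h1, h2.mul_left a, h3⟩

theorem top_dvd {x P : ℕ} (hx : Squarefree x) (hP : P.Prime) (h3 : 3 < P) (hd : P ∣ g x)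
    (hmax : ∀ q, q.Prime → q ∣ g x → q ≤ P) : P ∣ x := by
  rcases (hP.dvd_mul).mp hd with h | h
  · exact h
  · obtain ⟨q, h1, h2, ⟨c, hc⟩⟩ := dvd_sigma x hx P hP h
    exfalso
    have h4 : q ≤ P := hmax q h1 (h2.mul_right _)
    have h5 : c ≠ 0 := by rintro rfl; simp at hc
    have h6 : c < 2 := by
      by_contra hcc
      have : P * 2 ≤ P * c := Nat.mul_le_mul_left _ (by omega)
      omega
    have h7 : c = 1 := by omega
    rw [h7, mul_one] at hc
    -- q = P - 1 even
    have hodd : P % 2 = 1 := by
      rcases hP.eq_two_or_odd with h | h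
      · omega
      · exact h
    rcases h1.eq_two_or_odd with h | h <;> omega

theorem small {x : ℕ} (hx : Squarefree x) (h : ∀ q, q.Prime → q ∣ x → q ≤ 3) :
    x = 1 ∨ x = 2 ∨ x = 3 ∨ x = 6 := by
  have h1 : x ∣ 6 := by
    rw [← Nat.prod_primeFactors_of_squarefree hx]
    have : (∏ p ∈ ({2, 3} : Finset ℕ), p) = 6 := by decide
    rw [← this]
    apply Finset.prod_dvd_prod_of_subset
    intro q hq
    have hq1 := Nat.prime_of_mem_primeFactors hq
    have hq2 := h q hq1 (Nat.dvd_of_mem_primeFactors hq)
    have := hq1.two_le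
    simp; omega
  have h2 : x ∈ Nat.divisors 6 := by simp [h1]
  have h3 : Nat.divisors 6 = {1, 2, 3, 6} := by decide
  rw [h3] at h2
  simpa using h2

theorem sq_inj (x : ℕ) : ∀ y, Squarefree x → Squarefree y → g x = g y → x = y := by
  induction x using Nat.strong_induction_on with
  | _ x ih =>
  intro y hx hy hxy
  have hx0 : 0 < x := Nat.pos_of_ne_zero hx.ne_zero
  have hy0 : 0 < y := Nat.pos_of_ne_zero hy.ne_zero
  by_cases hbig : ∃ q, q.Prime ∧ q ∣ g x ∧ 3 < q
  · obtain ⟨q, hq1, hq2, hq3⟩ := hbig
    obtain ⟨P, hPm, hPmax⟩ := Finset.exists_max_image (g x).primeFactors id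
      ⟨q, Nat.mem_primeFactors.mpr ⟨hq1, hq2, (g_pos hx0).ne'⟩⟩
    have hP := Nat.prime_of_mem_primeFactors hPm
    have hmax : ∀ q, q.Prime → q ∣ g x → q ≤ P := fun q h1 h2 =>
      hPmax q (Nat.mem_primeFactors.mpr ⟨h1, h2, (g_pos hx0).ne'⟩)
    have h3 : 3 < P := lt_of_lt_of_le hq3 (hmax q hq1 hq2)
    have hd := Nat.dvd_of_mem_primeFactors hPm
    obtain ⟨x', rfl⟩ := top_dvd hx hP h3 hd hmax
    obtain ⟨y', rfl⟩ := top_dvd hy hP h3 (hxy ▸ hd) (hxy ▸ hmax)
    have c1 : P.Coprime x' := Nat.coprime_of_squarefree_mul hx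
    have c2 : P.Coprime y' := Nat.coprime_of_squarefree_mul hy
    rw [g_mul c1, g_mul c2] at hxy
    have h5 := Nat.eq_of_mul_eq_mul_left (g_pos hP.pos) hxy
    have h6 : x' < P * x' := by
      have : 0 < x' := Nat.pos_of_mul_pos_left hx0 |> fun h => by
        rcases Nat.eq_zero_or_pos x' with h | h
        · simp [h] at hx0
        · exact h
      nlinarith
    rw [ih x' h6 y' (hx.squarefree_of_dvd (dvd_mul_left _ _)) (hy.squarefree_of_dvd (dvd_mul_left _ _)) h5]
  · push_neg at hbig
    have ex := small hx (fun q h1 h2 => hbig q h1 (h2.mul_right _))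
    have ey := small hy (fun q h1 h2 => hbig q h1 (hxy ▸ (h2.mul_right _)))
    have g1 : g 1 = 1 := by decide
    have g2 : g 2 = 6 := by decide
    have g3 : g 3 = 12 := by decide
    have g6 : g 6 = 72 := by decide
    rcases ex with rfl | rfl | rfl | rfl <;> rcases ey with rfl | rfl | rfl | rfl <;>
      simp_all

theorem inj (x : ℕ) : ∀ y, 0 < x → 0 < y → g x = g y →
    (∀ p, p.Prime → 2 ≤ x.factorization p ∨ 2 ≤ y.factorization p →
      x.factorization p = y.factorization p) → x = y := by
  induction x using Nat.strong_induction_on with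
  | _ x ih =>
  intro y hx hy hxy hp
  by_cases hs : Squarefree x ∧ Squarefree y
  · exact sq_inj x y hs.1 hs.2 hxy
  · have : ∃ p, p.Prime ∧ (2 ≤ x.factorization p ∨ 2 ≤ y.factorization p) := by
      by_contra hno
      push_neg at hno
      apply hs
      constructor
      · rw [Nat.squarefree_iff_factorization_le_one hx.ne']
        intro p
        by_cases hpp : p.Prime
        · have := (hno p hpp).1; omega
        · simp [Nat.factorization_eq_zero_of_not_prime _ hpp]
      · rw [Nat.squarefree_iff_factorization_le_one hy.ne']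
        intro p
        by_cases hpp : p.Prime
        · have := (hno p hpp).2; omega
        · simp [Nat.factorization_eq_zero_of_not_prime _ hpp]
    obtain ⟨p, hpp, h2⟩ := this
    have he := hp p hpp h2
    have hx2 : 2 ≤ x.factorization p := by omega
    set a := x.factorization p with ha
    have ex : p ^ a * (x / p ^ a) = x := Nat.ordProj_mul_ordCompl_eq_self x p
    have ey : p ^ a * (y / p ^ a) = y := by rw [he]; exact Nat.ordProj_mul_ordCompl_eq_self y p
    have cx : (p ^ a).Coprime (x / p ^ a) := (Nat.coprime_ordCompl hpp hx.ne').pow_left _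
    have cy : (p ^ a).Coprime (y / p ^ a) := by
      rw [he]; exact (Nat.coprime_ordCompl hpp hy.ne').pow_left _
    have fx : (x / p ^ a).factorization = x.factorization.erase p := Nat.factorization_ordCompl x p
    have fy : (y / p ^ a).factorization = y.factorization.erase p := by
      rw [he]; exact Nat.factorization_ordCompl y p
    have px : 0 < x / p ^ a := Nat.pos_of_ne_zero (fun h => by rw [h] at ex; omega)
    have py : 0 < y / p ^ a := Nat.pos_of_ne_zero (fun h => by rw [h] at ey; omega)
    have hg : g (x / p ^ a) = g (y / p ^ a) := by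
      have h1 : g (p ^ a) * g (x / p ^ a) = g (p ^ a) * g (y / p ^ a) := by
        rw [← g_mul cx, ← g_mul cy, ex, ey, hxy]
      exact Nat.eq_of_mul_eq_mul_left (g_pos (pow_pos hpp.pos _)) h1
    have hlt : x / p ^ a < x := Nat.div_lt_self hx (Nat.one_lt_pow (by omega) hpp.one_lt)
    have := ih (x / p ^ a) hlt (y / p ^ a) px py hg (by
      intro q hq h
      rw [fx, fy] at h ⊢
      by_cases hqp : q = p
      · subst hqp; simp
      · rw [Finsupp.erase_ne hqp, Finsupp.erase_ne hqp] at h ⊢
        exact hp q hq h)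
    rw [← ex, ← ey, this]

theorem cube_le (a : ℕ) : a ^ 3 ≤ 3 ^ a := by
  rcases Nat.lt_or_ge a 3 with h | h
  · interval_cases a <;> norm_num
  · induction a, h using Nat.le_induction with
    | base => norm_num
    | succ a ha ih =>
      rw [pow_succ 3 a]
      have h9 : 3 * a ≤ a * a := Nat.mul_le_mul_right a ha
      have h10 : 3 * (a * a) ≤ a * (a * a) := Nat.mul_le_mul_right _ ha
      have h11 : (a + 1) ^ 3 = a * (a * a) + 3 * (a * a) + 3 * a + 1 := by ring
      have h12 : a ^ 3 = a * (a * a) := by ring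
      rw [h11]
      rw [h12] at ih
      omega

theorem le_exp (a : ℕ) : (a : ℝ) ≤ Real.exp (Real.log 3 / 3 * a) := by
  have h : (a : ℝ) ^ 3 ≤ (Real.exp (Real.log 3 / 3 * a)) ^ 3 := by
    rw [← Real.exp_nat_mul]
    have : ((3 : ℕ) : ℝ) * (Real.log 3 / 3 * a) = Real.log 3 * a := by push_cast; ring
    rw [this, Real.exp_mul, Real.exp_log (by norm_num), Real.rpow_natCast]
    exact_mod_cast cube_le a
  exact (pow_le_pow_iff_left₀ (by positivity) (by positivity) (by norm_num)).mp h

theorem prod_bound (n : ℕ) (hn : 3 ≤ n) (Y : ℝ) (hY : 1 < Y) :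
    ((∏ p ∈ n.primeFactors, n.factorization p : ℕ) : ℝ) ≤
      Real.exp (Y * Real.log (2 * Real.log n) + Real.log 3 / 3 * (Real.log n / Real.log Y)) := by
  have hn0 : n ≠ 0 := by omega
  have hlog2 : (1 : ℝ) / 2 < Real.log 2 := by have := Real.log_two_gt_d9; linarith
  have hn1 : Real.log 2 ≤ Real.log n := Real.log_le_log (by norm_num) (by exact_mod_cast (by omega : 2 ≤ n))
  have hL1 : 1 ≤ 2 * Real.log n := by linarith
  have hlogY : 0 < Real.log Y := Real.log_pos hY
  rw [Real.exp_add]
  push_cast
  rw [← Finset.prod_filter_mul_prod_filter_not n.primeFactors (fun p : ℕ => (p : ℝ) < Y)]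
  apply mul_le_mul _ _ (Finset.prod_nonneg fun _ _ => by positivity) (by positivity)
  · calc (∏ p ∈ n.primeFactors.filter (fun p : ℕ => (p : ℝ) < Y), (n.factorization p : ℝ))
        ≤ ∏ p ∈ n.primeFactors.filter (fun p : ℕ => (p : ℝ) < Y), (2 * Real.log n) := by
          apply Finset.prod_le_prod (fun _ _ => by positivity)
          intro p hp
          have hpp := Nat.prime_of_mem_primeFactors (Finset.mem_filter.mp hp).1
          have h1 : 2 ^ n.factorization p ≤ n :=
            (Nat.pow_le_pow_left hpp.two_le _).trans (Nat.ordProj_le p hn0)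
          have h2 : Real.log ((2 : ℝ) ^ n.factorization p) ≤ Real.log n :=
            Real.log_le_log (by positivity) (by exact_mod_cast h1)
          rw [Real.log_pow] at h2
          have h3 : (0 : ℝ) ≤ n.factorization p := by positivity
          nlinarith
      _ = (2 * Real.log n) ^ (n.primeFactors.filter (fun p : ℕ => (p : ℝ) < Y)).card := by
          rw [Finset.prod_const]
      _ ≤ Real.exp (Y * Real.log (2 * Real.log n)) := by
          have hcard : ((n.primeFactors.filter (fun p : ℕ => (p : ℝ) < Y)).card : ℝ) ≤ Y := by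
            have h1 : n.primeFactors.filter (fun p : ℕ => (p : ℝ) < Y) ⊆ Finset.Icc 1 ⌊Y⌋₊ := by
              intro p hp
              rw [Finset.mem_filter] at hp
              rw [Finset.mem_Icc]
              exact ⟨(Nat.prime_of_mem_primeFactors hp.1).one_lt.le, Nat.le_floor hp.2.le⟩
            have h2 := Finset.card_le_card h1
            rw [Nat.card_Icc] at h2
            have h3 : (n.primeFactors.filter (fun p : ℕ => (p : ℝ) < Y)).card ≤ ⌊Y⌋₊ := by omega
            exact (Nat.cast_le.mpr h3).trans (Nat.floor_le (by linarith))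
          rw [← Real.exp_log (show (0 : ℝ) < 2 * Real.log n by linarith), ← Real.exp_nat_mul,
            Real.exp_log (show (0 : ℝ) < 2 * Real.log n by linarith)]
          apply Real.exp_le_exp.mpr
          exact mul_le_mul_of_nonneg_right hcard (Real.log_nonneg hL1)
  · calc (∏ p ∈ n.primeFactors.filter (fun p : ℕ => ¬ (p : ℝ) < Y), (n.factorization p : ℝ))
        ≤ ∏ p ∈ n.primeFactors.filter (fun p : ℕ => ¬ (p : ℝ) < Y), Real.exp (Real.log 3 / 3 * n.factorization p) :=
          Finset.prod_le_prod (fun _ _ => by positivity) (fun p _ => le_exp _)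
      _ = Real.exp (Real.log 3 / 3 * ∑ p ∈ n.primeFactors.filter (fun p : ℕ => ¬ (p : ℝ) < Y), (n.factorization p : ℝ)) := by
          rw [← Real.exp_sum, Finset.mul_sum]
      _ ≤ Real.exp (Real.log 3 / 3 * (Real.log n / Real.log Y)) := by
          apply Real.exp_le_exp.mpr
          apply mul_le_mul_of_nonneg_left _ (by positivity)
          rw [le_div_iff₀ hlogY, Finset.sum_mul]
          have h1 : Real.log n = ∑ p ∈ n.primeFactors, (n.factorization p : ℝ) * Real.log p := by
            rw [Real.log_nat_eq_sum_factorization]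
            rfl
          rw [h1]
          calc _ ≤ ∑ p ∈ n.primeFactors.filter (fun p : ℕ => ¬ (p : ℝ) < Y), (n.factorization p : ℝ) * Real.log p := by
                apply Finset.sum_le_sum
                intro p hp
                have := (Finset.mem_filter.mp hp).2
                push_neg at this
                exact mul_le_mul_of_nonneg_left (Real.log_le_log (by linarith) this) (by positivity)
            _ ≤ _ := by
                apply Finset.sum_le_sum_of_subset_of_nonneg (Finset.filter_subset _ _)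
                intro p hp _
                have := (Nat.prime_of_mem_primeFactors hp).one_lt.le
                exact mul_nonneg (by positivity) (Real.log_nonneg (by exact_mod_cast this))

open Filter in
theorem asym (c : ℝ) (hc : Real.log 3 / 3 < c) : ∀ᶠ n : ℕ in atTop,
    ((∏ p ∈ n.primeFactors, n.factorization p : ℕ) : ℝ) ≤ (n : ℝ) ^ (c / Real.log (Real.log n)) := by
  set c0 := Real.log 3 / 3 with hc0
  have hc0p : 0 < c0 := by rw [hc0]; have := Real.log_pos (show (1:ℝ) < 3 by norm_num); positivity
  -- choose d in (0,1) with c0 / d < c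
  obtain ⟨d, hd0, hd1, hdc⟩ : ∃ d : ℝ, 0 < d ∧ d < 1 ∧ c0 / d < c := by
    refine ⟨(c0 / c + 1) / 2, ?_, ?_, ?_⟩
    · have : 0 < c0 / c := div_pos hc0p (hc0p.trans hc)
      linarith
    · have : c0 / c < 1 := (div_lt_one (hc0p.trans hc)).mpr hc
      linarith
    · have h1 : c0 / c < 1 := (div_lt_one (hc0p.trans hc)).mpr hc
      have h2 : 0 < c0 / c := div_pos hc0p (hc0p.trans hc)
      rw [div_lt_iff₀ (by linarith)]
      have h3 : c * (c0 / c) = c0 := by field_simp [(hc0p.trans hc).ne']
      nlinarith [hc0p.trans hc]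
  set η := c - c0 / d with hη
  have hηp : 0 < η := by linarith
  have hlogn : Tendsto (fun n : ℕ => Real.log n) atTop atTop :=
    Real.tendsto_log_atTop.comp tendsto_natCast_atTop_atTop
  -- in terms of u
  have hu : ∀ᶠ u : ℝ in atTop, u ^ d * Real.log (2 * u) * Real.log u ≤ η * u := by
    have h1 : (fun u : ℝ => Real.log u) =o[atTop] fun u => u ^ ((1 - d) / 2) :=
      isLittleO_log_rpow_atTop (by linarith)
    have h2 := h1.bound (show (0 : ℝ) < min 1 (η / 2) by positivity)
    filter_upwards [h2, eventually_ge_atTop (3 : ℝ)] with u hu hu3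
    have hl1 : 1 ≤ Real.log u := by
      rw [Real.le_log_iff_exp_le (by linarith)]
      have := Real.exp_one_lt_d9; linarith
    rw [Real.norm_of_nonneg (by linarith), Real.norm_of_nonneg (by positivity)] at hu
    have hl2 : Real.log (2 * u) ≤ 2 * Real.log u := by
      rw [Real.log_mul (by norm_num) (by linarith)]
      have : Real.log 2 ≤ Real.log u := Real.log_le_log (by norm_num) (by linarith)
      linarith
    have ha : Real.log u ≤ 1 * u ^ ((1 - d) / 2) := hu.trans (mul_le_mul_of_nonneg_right (min_le_left _ _) (by positivity))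
    have hb : Real.log u ≤ η / 2 * u ^ ((1 - d) / 2) := hu.trans (mul_le_mul_of_nonneg_right (min_le_right _ _) (by positivity))
    have hud : u = u ^ d * (u ^ ((1 - d) / 2) * u ^ ((1 - d) / 2)) := by
      rw [← Real.rpow_add (by linarith), ← Real.rpow_add (by linarith)]
      rw [show d + ((1 - d) / 2 + (1 - d) / 2) = 1 by ring, Real.rpow_one]
    have hll : Real.log (2 * u) * Real.log u ≤ η * (u ^ ((1 - d) / 2) * u ^ ((1 - d) / 2)) := by
      calc Real.log (2 * u) * Real.log u ≤ (2 * Real.log u) * Real.log u :=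
            mul_le_mul_of_nonneg_right hl2 (by linarith)
        _ ≤ (2 * (1 * u ^ ((1 - d) / 2))) * (η / 2 * u ^ ((1 - d) / 2)) := by
            apply mul_le_mul _ hb (by linarith) (by positivity)
            linarith
        _ = _ := by ring
    calc u ^ d * Real.log (2 * u) * Real.log u = u ^ d * (Real.log (2 * u) * Real.log u) := by ring
      _ ≤ u ^ d * (η * (u ^ ((1 - d) / 2) * u ^ ((1 - d) / 2))) := mul_le_mul_of_nonneg_left hll (by positivity)
      _ = η * (u ^ d * (u ^ ((1 - d) / 2) * u ^ ((1 - d) / 2))) := by ring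
      _ = η * u := by rw [← hud]
  filter_upwards [hlogn.eventually hu, hlogn.eventually (eventually_ge_atTop (3 : ℝ)), eventually_ge_atTop 3] with n h1 h2 h3
  have hl1 : 1 ≤ Real.log (Real.log n) := by
    rw [Real.le_log_iff_exp_le (by linarith)]
    have := Real.exp_one_lt_d9; linarith
  have hY : 1 < (Real.log n) ^ d := Real.one_lt_rpow (by linarith) hd0
  refine (prod_bound n h3 _ hY).trans ?_
  rw [Real.rpow_def_of_pos (show (0 : ℝ) < (n : ℝ) by exact_mod_cast (by omega : 0 < n))]
  apply Real.exp_le_exp.mpr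
  rw [Real.log_rpow (by linarith)]
  have h4 : (Real.log n) ^ d * Real.log (2 * Real.log n) ≤ η * Real.log n / Real.log (Real.log n) := by
    rw [le_div_iff₀ (by linarith)]; exact h1
  have h5 : Real.log 3 / 3 * (Real.log n / (d * Real.log (Real.log n))) = (c0 / d) * Real.log n / Real.log (Real.log n) := by
    rw [hc0]; field_simp
  rw [h5]
  calc _ ≤ η * Real.log n / Real.log (Real.log n) + (c0 / d) * Real.log n / Real.log (Real.log n) := by linarith
    _ = Real.log n * (c / Real.log (Real.log n)) := by rw [hη]; ring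

theorem card_bound (n : ℕ) (hn : 0 < n) :
      {x : ℕ | 0 < x ∧ x * (∑ d ∈ x.divisors, d) = n}.ncard ≤
        ∏ p ∈ n.primeFactors, n.factorization p := by
  classical
  let T : Finset ((p : ℕ) → p ∈ n.primeFactors → ℕ) :=
    n.primeFactors.pi (fun p => (Finset.range (n.factorization p + 1)).erase 1)
  have hT : T.card = ∏ p ∈ n.primeFactors, n.factorization p := by
    rw [Finset.card_pi]
    apply Finset.prod_congr rfl
    intro p hp
    have h1 : 1 ≤ n.factorization p :=
      (Nat.prime_of_mem_primeFactors hp).factorization_pos_of_dvd hn.ne' (Nat.dvd_of_mem_primeFactors hp)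
    rw [Finset.card_erase_of_mem (by simp; omega), Finset.card_range]
    omega
  rw [← hT, ← Set.ncard_coe_finset T]
  apply Set.ncard_le_ncard_of_injOn
    (fun x => fun p _ => if x.factorization p = 1 then 0 else x.factorization p)
  · rintro x ⟨hx, hxn⟩
    have hdvd : x ∣ n := ⟨_, hxn.symm⟩
    simp only [T, Finset.coe_sort_coe, Finset.mem_coe, Finset.mem_pi, Finset.mem_erase, Finset.mem_range]
    intro p hp
    have hle : x.factorization p ≤ n.factorization p :=
      (Nat.factorization_le_iff_dvd hx.ne' hn.ne').mpr hdvd p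
    split_ifs with h
    · exact ⟨by decide, by omega⟩
    · exact ⟨h, by omega⟩
  · rintro x ⟨hx, hxn⟩ y ⟨hy, hyn⟩ hxy
    apply inj x y hx hy (hxn.trans hyn.symm)
    intro p hp h
    by_cases hpn : p ∈ n.primeFactors
    · have := congrFun (congrFun hxy p) hpn
      simp only at this
      split_ifs at this <;> omega
    · have hx0 : x.factorization p = 0 := by
        apply Nat.factorization_eq_zero_of_not_dvd
        intro hd
        exact hpn (Nat.mem_primeFactors.mpr ⟨hp, hd.trans ⟨_, hxn.symm⟩, hn.ne'⟩)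
      have hy0 : y.factorization p = 0 := by
        apply Nat.factorization_eq_zero_of_not_dvd
        intro hd
        exact hpn (Nat.mem_primeFactors.mpr ⟨hp, hd.trans ⟨_, hyn.symm⟩, hn.ne'⟩)
      rw [hx0, hy0]

theorem result :
    (∀ x y : ℕ, Squarefree x → Squarefree y →
      x * (∑ d ∈ x.divisors, d) = y * (∑ d ∈ y.divisors, d) → x = y) ∧
    (∀ n : ℕ, 0 < n →
      {x : ℕ | 0 < x ∧ x * (∑ d ∈ x.divisors, d) = n}.ncard ≤
        ∏ p ∈ n.primeFactors, n.factorization p) ∧
    (∀ c : ℝ, Real.log 3 / 3 < c → ∃ n₀ : ℕ, ∀ n : ℕ, n₀ ≤ n →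
      (({x : ℕ | 0 < x ∧ x * (∑ d ∈ x.divisors, d) = n}.ncard : ℕ) : ℝ) ≤
        (n : ℝ) ^ (c / Real.log (Real.log n))) := by
  refine ⟨fun x y hx hy h => sq_inj x y hx hy h, fun n hn => card_bound n hn, fun c hc => ?_⟩
  obtain ⟨n₀, h⟩ := Filter.eventually_atTop.mp (asym c hc)
  refine ⟨n₀ + 1, fun n hn => ?_⟩
  exact (Nat.cast_le.mpr (card_bound n (by omega))).trans (h n (by omega))

end Pool.Agent.Results.MP_253cbc_nt.FiberBound
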