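import Mathlib

set_option maxHeartbeats 4000000

open Finset

namespace Pool.Agent.Results.MP_253cbc_nt.SquarefullBound

/-- the sum of the positive divisors -/
def sg (m : ℕ) : ℕ := ∑ d ∈ m.divisors, d

/-- the number of positive integers `x` with `x σ(x) = n` -/
noncomputable def F (n : ℕ) : ℕ := Set.ncard {x : ℕ | 0 < x ∧ x * sg x = n}

/-- every prime divisor divides at least twice -/
def Squarefull (s : ℕ) : Prop := ∀ p : ℕ, p.Prime → p ∣ s → p ^ 2 ∣ s

lemma sg_mul {a b : ℕ} (h : Nat.Coprime a b) : sg (a * b) = sg a * sg b := by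
  have := (ArithmeticFunction.isMultiplicative_sigma (k := 1)).map_mul_of_coprime h
  simpa [sg, ArithmeticFunction.sigma_one_apply] using this

lemma sg_prime {p : ℕ} (hp : p.Prime) : sg p = p + 1 := by
  unfold sg
  rw [hp.divisors, Finset.sum_pair hp.one_lt.ne]
  ring

lemma sg_pos {m : ℕ} (hm : 0 < m) : 0 < sg m := by
  unfold sg
  apply Finset.sum_pos
  · intro d hd; exact Nat.pos_of_mem_divisors hd
  · exact ⟨1, Nat.one_mem_divisors.2 hm.ne'⟩

lemma sqf_split {m p : ℕ} (hp : p.Prime) (hm : Squarefree m) (h : p ∣ m) :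
    ∃ m1, m = p * m1 ∧ Nat.Coprime p m1 ∧ Squarefree m1 ∧ sg m = (p + 1) * sg m1 := by
  obtain ⟨m1, rfl⟩ := h
  have hc : Nat.Coprime p m1 := by
    rw [hp.coprime_iff_not_dvd]
    intro hd
    obtain ⟨c, rfl⟩ := hd
    have := hm p ⟨c, by ring⟩
    exact hp.one_lt.ne' (Nat.isUnit_iff.1 this)
  exact ⟨m1, rfl, hc, hm.squarefree_of_dvd (Dvd.intro_left p rfl), by rw [sg_mul hc, sg_prime hp]⟩

lemma exists_of_dvd_sg {P : ℕ} (hP : P.Prime) : ∀ m : ℕ, Squarefree m → P ∣ sg m → ∃ p, p.Prime ∧ p ∣ m ∧ P ∣ p + 1 := by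
  intro m
  induction m using Nat.strong_induction_on with
  | _ m ih =>
    intro hm hd
    by_cases h1 : m = 1
    · subst h1
      simp [sg] at hd
      exact absurd hd hP.one_lt.ne'
    · have hp := Nat.minFac_prime h1
      obtain ⟨m1, e, hc, hs, hsg⟩ := sqf_split hp hm (Nat.minFac_dvd m)
      rw [hsg, hP.dvd_mul] at hd
      rcases hd with hd | hd
      · exact ⟨_, hp, Nat.minFac_dvd m, hd⟩
      · have hm1 : 0 < m1 := Nat.pos_of_ne_zero (fun h => by rw [h] at hs; exact not_squarefree_zero hs)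
        have hlt : m1 < m := by
          have := hp.two_le
          nlinarith
        obtain ⟨q, hq, hqd, hqq⟩ := ih m1 hlt hs hd
        exact ⟨q, hq, by rw [e]; exact hqd.mul_left _, hqq⟩

lemma big_dvd {m P : ℕ} (hm : Squarefree m) (hP : P.Prime) (hP3 : 3 < P) (hd : P ∣ m * sg m)
    (hmax : ∀ q, q.Prime → q ∣ m * sg m → q ≤ P) : P ∣ m := by
  rcases (hP.dvd_mul).1 hd with h | h
  · exact h
  · exfalso
    obtain ⟨p, hp, hpm, hPp⟩ := exists_of_dvd_sg hP m hm h
    have hle := hmax p hp (hpm.mul_right _)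
    obtain ⟨c, hc⟩ := hPp
    have hc1 : c = 1 := by
      have hc0 : c ≠ 0 := by rintro rfl; simp at hc
      by_contra hne
      have : 2 ≤ c := by omega
      nlinarith
    rw [hc1, mul_one] at hc
    have hodd : P % 2 = 1 := by
      rcases hP.eq_two_or_odd with h | h
      · omega
      · exact h
    have : 2 ∣ p := by omega
    have := (Nat.prime_dvd_prime_iff_eq Nat.prime_two hp).1 this
    omega

lemma small {m : ℕ} (hm : Squarefree m) (h : ∀ q, q.Prime → q ∣ m * sg m → q ≤ 3) :
    m = 1 ∨ m = 2 ∨ m = 3 ∨ m = 6 := by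
  have hd : m ∣ 6 := by
    rw [← Nat.prod_primeFactors_of_squarefree hm]
    have hsub : m.primeFactors ⊆ {2, 3} := by
      intro q hq
      have hqp := Nat.prime_of_mem_primeFactors hq
      have := h q hqp ((Nat.dvd_of_mem_primeFactors hq).mul_right _)
      have h2 := hqp.two_le
      interval_cases q <;> simp
    have := Finset.prod_dvd_prod_of_subset _ _ (fun p : ℕ => p) hsub
    simpa using this
  have hle := Nat.le_of_dvd (by norm_num) hd
  have h0 : 0 < m := Nat.pos_of_dvd_of_pos hd (by norm_num)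
  interval_cases m <;> simp_all <;> omega

/-- `m ↦ m σ(m)` is injective on squarefree numbers -/
lemma inj_sqf : ∀ m : ℕ, ∀ m' : ℕ, Squarefree m → Squarefree m' → m * sg m = m' * sg m' → m = m' := by
  intro m
  induction m using Nat.strong_induction_on with
  | _ m ih =>
    intro m' hm hm' he
    have hm0 : 0 < m := Nat.pos_of_ne_zero (fun h => by rw [h] at hm; exact not_squarefree_zero hm)
    have hN : m * sg m ≠ 0 := (Nat.mul_pos hm0 (sg_pos hm0)).ne'
    by_cases hall : ∀ q, q.Prime → q ∣ m * sg m → q ≤ 3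
    · have h1 := small hm hall
      have h2 := small hm' (by rw [← he]; exact hall)
      have s1 : sg 1 = 1 := by decide
      have s2 : sg 2 = 3 := by decide
      have s3 : sg 3 = 4 := by decide
      have s6 : sg 6 = 12 := by decide
      rcases h1 with rfl | rfl | rfl | rfl <;> rcases h2 with rfl | rfl | rfl | rfl <;>
        simp_all
    · push Not at hall
      obtain ⟨q, hq, hqd, hq3⟩ := hall
      have hne : (m * sg m).primeFactors.Nonempty := ⟨q, Nat.mem_primeFactors.2 ⟨hq, hqd, hN⟩⟩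
      obtain ⟨P, hPmem, hPmax⟩ := Finset.exists_max_image _ (fun x => x) hne
      rw [Nat.mem_primeFactors] at hPmem
      have hmax : ∀ r, r.Prime → r ∣ m * sg m → r ≤ P := fun r hr hrd =>
        hPmax r (Nat.mem_primeFactors.2 ⟨hr, hrd, hN⟩)
      have hP3 : 3 < P := lt_of_lt_of_le hq3 (hmax q hq hqd)
      have d1 := big_dvd hm hPmem.1 hP3 hPmem.2.1 hmax
      have d2 := big_dvd hm' hPmem.1 hP3 (he ▸ hPmem.2.1) (he ▸ hmax)
      obtain ⟨a, ea, _, ha, sa⟩ := sqf_split hPmem.1 hm d1
      obtain ⟨b, eb, _, hb, sb⟩ := sqf_split hPmem.1 hm' d2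
      have ha0 : 0 < a := Nat.pos_of_ne_zero (fun h => by rw [h] at ha; exact not_squarefree_zero ha)
      have hab : a * sg a = b * sg b := by
        have hpos : 0 < P * (P + 1) := Nat.mul_pos hPmem.1.pos (by omega)
        apply Nat.eq_of_mul_eq_mul_left hpos
        rw [sa, sb, ea, eb] at he
        nlinarith [he]
      have hlt : a < m := by rw [ea]; nlinarith
      have := ih a hlt b ha hb hab
      rw [ea, eb, this]

lemma decomp (x : ℕ) (hx : 0 < x) : ∃ s m, x = s * m ∧ Nat.Coprime s m ∧ Squarefull s ∧ Squarefree m := by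
  induction x using Nat.recOnPosPrimePosCoprime with
  | prime_pow p k hp hk =>
    by_cases h1 : k = 1
    · subst h1
      exact ⟨1, p, by simp, by simp, fun q hq hd => absurd (Nat.dvd_one.1 hd) hq.one_lt.ne', hp.prime.squarefree⟩
    · refine ⟨p ^ k, 1, by simp, by simp, ?_, squarefree_one⟩
      intro q hq hd
      have : q = p := (Nat.prime_dvd_prime_iff_eq hq hp).1 (hq.dvd_of_dvd_pow hd)
      rw [this]
      exact pow_dvd_pow p (by omega)
  | zero => omega
  | one => exact ⟨1, 1, by simp, by simp, fun q hq hd => absurd (Nat.dvd_one.1 hd) hq.one_lt.ne', squarefree_one⟩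
  | coprime a b ha hb hab iha ihb =>
    obtain ⟨s, m, rfl, h1, h2, h3⟩ := iha (by omega)
    obtain ⟨s', m', rfl, h1', h2', h3'⟩ := ihb (by omega)
    have c1 : Nat.Coprime s s' := hab.coprime_dvd_left ⟨m, rfl⟩ |>.coprime_dvd_right ⟨m', rfl⟩
    have c2 : Nat.Coprime s m' := hab.coprime_dvd_left ⟨m, rfl⟩ |>.coprime_dvd_right ⟨s', by ring⟩
    have c3 : Nat.Coprime m s' := hab.coprime_dvd_left ⟨s, by ring⟩ |>.coprime_dvd_right ⟨m', rfl⟩
    have c4 : Nat.Coprime m m' := hab.coprime_dvd_left ⟨s, by ring⟩ |>.coprime_dvd_right ⟨s', by ring⟩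
    refine ⟨s * s', m * m', by ring, ?_, ?_, ?_⟩
    · exact Nat.Coprime.mul_left (Nat.Coprime.mul_right h1 c2) (Nat.Coprime.mul_right c3.symm h1')
    · intro q hq hd
      rcases hq.dvd_mul.1 hd with h | h
      · exact (h2 q hq h).mul_right _
      · exact (h2' q hq h).mul_left _
    · exact (Nat.squarefree_mul c4).2 ⟨h3, h3'⟩

lemma count_sqfull (n : ℕ) (hn : 0 < n) :
    Set.ncard {s : ℕ | s ∣ n ∧ Squarefull s} ≤ ∏ p ∈ n.primeFactors, n.factorization p := by
  classical
  have hcard : ∏ p ∈ n.primeFactors, n.factorization p =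
      (Finset.pi n.primeFactors (fun p => Finset.range (n.factorization p))).card := by
    rw [Finset.card_pi]
    simp
  rw [hcard, ← Set.ncard_coe_finset]
  apply Set.ncard_le_ncard_of_injOn (fun s => fun p (_ : p ∈ n.primeFactors) => s.factorization p - 1)
    (ht := Finset.finite_toSet _)
  · rintro s ⟨hs, hf⟩
    rw [Finset.mem_coe, Finset.mem_pi]
    intro p hp
    rw [Finset.mem_range]
    have hpp := Nat.prime_of_mem_primeFactors hp
    have h1 : 0 < n.factorization p := hpp.factorization_pos_of_dvd hn.ne' (Nat.dvd_of_mem_primeFactors hp)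
    have hs0 : s ≠ 0 := by rintro rfl; simp at hs; omega
    have h2 : s.factorization p ≤ n.factorization p := (Nat.factorization_le_iff_dvd hs0 hn.ne').2 hs p
    omega
  · rintro s ⟨hs, hf⟩ s' ⟨hs', hf'⟩ he
    have hs0 : s ≠ 0 := by rintro rfl; simp at hs; omega
    have hs0' : s' ≠ 0 := by rintro rfl; simp at hs'; omega
    have hne : ∀ u : ℕ, u ≠ 0 → Squarefull u → ∀ p, p.Prime → u.factorization p ≠ 1 := by
      intro u hu hfu p hp h1
      have hd : p ∣ u := by
        by_contra hnd
        rw [Nat.factorization_eq_zero_of_not_dvd hnd] at h1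
        omega
      have := (hp.pow_dvd_iff_le_factorization hu).1 (hfu p hp hd)
      omega
    apply Nat.eq_of_factorization_eq hs0 hs0'
    intro p
    by_cases hp : p ∈ n.primeFactors
    · have hpp := Nat.prime_of_mem_primeFactors hp
      have h1 := congrFun (congrFun he p) hp
      simp only at h1
      have h2 := hne s hs0 hf p hpp
      have h3 := hne s' hs0' hf' p hpp
      omega
    · have hz : ∀ u, u ∣ n → u.factorization p = 0 := by
        intro u hu
        by_cases hpp : p.Prime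
        · apply Nat.factorization_eq_zero_of_not_dvd
          intro hd
          exact hp (Nat.mem_primeFactors.2 ⟨hpp, hd.trans hu, hn.ne'⟩)
        · exact Nat.factorization_eq_zero_of_not_prime u hpp
      rw [hz s hs, hz s' hs']

end Pool.Agent.Results.MP_253cbc_nt.SquarefullBound

open Pool.Agent.Results.MP_253cbc_nt.SquarefullBound in
/-- `F(n)` is at most the number of squarefull `s` with `s σ(s) ∣ n`, and at most the product of
the exponents in the factorization of `n` (the number of its squarefull divisors). And `m ↦ m σ(m)` is injective on squarefree numbers. -/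
theorem Pool.Agent.Results.MP_253cbc_nt.SquarefullBound.result :
    (∀ n : ℕ, 0 < n → F n ≤ Set.ncard {s : ℕ | s ∣ n ∧ Squarefull s ∧ s * sg s ∣ n} ∧
        F n ≤ ∏ p ∈ n.primeFactors, n.factorization p) ∧
      (∀ m m' : ℕ, Squarefree m → Squarefree m' → m * sg m = m' * sg m' → m = m') := by
  refine ⟨?_, inj_sqf⟩
  intro n hn
  suffices hmain : F n ≤ Set.ncard {s : ℕ | s ∣ n ∧ Squarefull s ∧ s * sg s ∣ n} by
    have hfin2 : Set.Finite {s : ℕ | s ∣ n ∧ Squarefull s} := by
      apply Set.Finite.subset (Finset.finite_toSet n.divisors)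
      rintro s ⟨h, _⟩
      simp [h, hn.ne']
    have hsub : {s : ℕ | s ∣ n ∧ Squarefull s ∧ s * sg s ∣ n} ⊆ {s : ℕ | s ∣ n ∧ Squarefull s} :=
      fun s hs => ⟨hs.1, hs.2.1⟩
    exact ⟨hmain, hmain.trans ((Set.ncard_le_ncard hsub hfin2).trans (count_sqfull n hn))⟩
  have hex : ∀ x : ℕ, ∃ s m, 0 < x → x = s * m ∧ Nat.Coprime s m ∧ Squarefull s ∧ Squarefree m := by
    intro x
    by_cases hx : 0 < x
    · obtain ⟨s, m, h⟩ := decomp x hx
      exact ⟨s, m, fun _ => h⟩
    · exact ⟨0, 0, fun h => absurd h hx⟩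
  choose S M hSM using hex
  unfold F
  have hfin : Set.Finite {s : ℕ | s ∣ n ∧ Squarefull s ∧ s * sg s ∣ n} := by
    apply Set.Finite.subset (Finset.finite_toSet n.divisors)
    rintro s ⟨h, _⟩
    simp [h, hn.ne']
  apply Set.ncard_le_ncard_of_injOn S (ht := hfin)
  · rintro x ⟨hx0, hx⟩
    obtain ⟨e, hc, hs, hm⟩ := hSM x hx0
    have e2 : sg x = sg (S x) * sg (M x) := by
      conv_lhs => rw [e]
      exact sg_mul hc
    refine ⟨?_, hs, ?_⟩
    · rw [← hx]
      exact Dvd.dvd.mul_right ⟨M x, e⟩ _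
    · refine ⟨M x * sg (M x), ?_⟩
      have e3 : x * sg x = (S x * M x) * (sg (S x) * sg (M x)) := by rw [← e, ← e2]
      rw [← hx, e3]
      ring
  · rintro x ⟨hx0, hx⟩ y ⟨hy0, hy⟩ hxy
    obtain ⟨e, hc, hs, hm⟩ := hSM x hx0
    obtain ⟨e', hc', hs', hm'⟩ := hSM y hy0
    have e2 : sg x = sg (S x) * sg (M x) := by
      conv_lhs => rw [e]
      exact sg_mul hc
    have e2' : sg y = sg (S y) * sg (M y) := by
      conv_lhs => rw [e']
      exact sg_mul hc'
    have hS0 : 0 < S x := Nat.pos_of_ne_zero (fun h => by rw [h] at e; omega)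
    have hpos : 0 < S x * sg (S x) := Nat.mul_pos hS0 (sg_pos hS0)
    have h1 : S x * sg (S x) * (M x * sg (M x)) = n := by
      have e3 : x * sg x = (S x * M x) * (sg (S x) * sg (M x)) := by rw [← e, ← e2]
      rw [← hx, e3]
      ring
    have h2 : S x * sg (S x) * (M y * sg (M y)) = n := by
      have e3 : y * sg y = (S y * M y) * (sg (S y) * sg (M y)) := by rw [← e', ← e2']
      rw [← hy, e3, hxy]
      ring
    have h3 := Nat.eq_of_mul_eq_mul_left hpos (h1.trans h2.symm)
    have h4 := inj_sqf _ _ hm hm' h3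
    rw [e, e', hxy, h4]
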