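import Mathlib

set_option maxHeartbeats 4000000

open Finset Filter Topology

namespace Pool.Agent.Results.MP_253cbc_nt.WigertConstant

/-- the sum of the positive divisors -/
def sg (m : ℕ) : ℕ := ∑ d ∈ m.divisors, d

/-- the number of positive integers `x` with `x σ(x) = n` -/
noncomputable def F (n : ℕ) : ℕ := Set.ncard {x : ℕ | 0 < x ∧ x * sg x = n}

/-- every prime divisor divides at least twice -/
def Squarefull (s : ℕ) : Prop := ∀ p : ℕ, p.Prime → p ∣ s → p ^ 2 ∣ s

lemma sg_mul {a b : ℕ} (h : Nat.Coprime a b) : sg (a * b) = sg a * sg b := by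
  have := (ArithmeticFunction.isMultiplicative_sigma (k := 1)).map_mul_of_coprime h
  simpa [sg, ArithmeticFunction.sigma_one_apply] using this

lemma sg_prime {p : ℕ} (hp : p.Prime) : sg p = p + 1 := by
  unfold sg
  rw [hp.divisors, Finset.sum_pair hp.one_lt.ne]
  ring

lemma sg_pos {m : ℕ} (hm : 0 < m) : 0 < sg m := by
  unfold sg
  apply Finset.sum_pos
  · intro d hd; exact Nat.pos_of_mem_divisors hd
  · exact ⟨1, Nat.one_mem_divisors.2 hm.ne'⟩

lemma sqf_split {m p : ℕ} (hp : p.Prime) (hm : Squarefree m) (h : p ∣ m) :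
    ∃ m1, m = p * m1 ∧ Nat.Coprime p m1 ∧ Squarefree m1 ∧ sg m = (p + 1) * sg m1 := by
  obtain ⟨m1, rfl⟩ := h
  have hc : Nat.Coprime p m1 := by
    rw [hp.coprime_iff_not_dvd]
    intro hd
    obtain ⟨c, rfl⟩ := hd
    have := hm p ⟨c, by ring⟩
    exact hp.one_lt.ne' (Nat.isUnit_iff.1 this)
  exact ⟨m1, rfl, hc, hm.squarefree_of_dvd (Dvd.intro_left p rfl), by rw [sg_mul hc, sg_prime hp]⟩

lemma exists_of_dvd_sg {P : ℕ} (hP : P.Prime) : ∀ m : ℕ, Squarefree m → P ∣ sg m → ∃ p, p.Prime ∧ p ∣ m ∧ P ∣ p + 1 := by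
  intro m
  induction m using Nat.strong_induction_on with
  | _ m ih =>
    intro hm hd
    by_cases h1 : m = 1
    · subst h1
      simp [sg] at hd
      exact absurd hd hP.one_lt.ne'
    · have hp := Nat.minFac_prime h1
      obtain ⟨m1, e, hc, hs, hsg⟩ := sqf_split hp hm (Nat.minFac_dvd m)
      rw [hsg, hP.dvd_mul] at hd
      rcases hd with hd | hd
      · exact ⟨_, hp, Nat.minFac_dvd m, hd⟩
      · have hm1 : 0 < m1 := Nat.pos_of_ne_zero (fun h => by rw [h] at hs; exact not_squarefree_zero hs)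
        have hlt : m1 < m := by
          have := hp.two_le
          nlinarith
        obtain ⟨q, hq, hqd, hqq⟩ := ih m1 hlt hs hd
        exact ⟨q, hq, by rw [e]; exact hqd.mul_left _, hqq⟩

lemma big_dvd {m P : ℕ} (hm : Squarefree m) (hP : P.Prime) (hP3 : 3 < P) (hd : P ∣ m * sg m)
    (hmax : ∀ q, q.Prime → q ∣ m * sg m → q ≤ P) : P ∣ m := by
  rcases (hP.dvd_mul).1 hd with h | h
  · exact h
  · exfalso
    obtain ⟨p, hp, hpm, hPp⟩ := exists_of_dvd_sg hP m hm h
    have hle := hmax p hp (hpm.mul_right _)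
    obtain ⟨c, hc⟩ := hPp
    have hc1 : c = 1 := by
      have hc0 : c ≠ 0 := by rintro rfl; simp at hc
      by_contra hne
      have : 2 ≤ c := by omega
      nlinarith
    rw [hc1, mul_one] at hc
    have hodd : P % 2 = 1 := by
      rcases hP.eq_two_or_odd with h | h
      · omega
      · exact h
    have : 2 ∣ p := by omega
    have := (Nat.prime_dvd_prime_iff_eq Nat.prime_two hp).1 this
    omega

lemma small {m : ℕ} (hm : Squarefree m) (h : ∀ q, q.Prime → q ∣ m * sg m → q ≤ 3) :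
    m = 1 ∨ m = 2 ∨ m = 3 ∨ m = 6 := by
  have hd : m ∣ 6 := by
    rw [← Nat.prod_primeFactors_of_squarefree hm]
    have hsub : m.primeFactors ⊆ {2, 3} := by
      intro q hq
      have hqp := Nat.prime_of_mem_primeFactors hq
      have := h q hqp ((Nat.dvd_of_mem_primeFactors hq).mul_right _)
      have h2 := hqp.two_le
      interval_cases q <;> simp
    have := Finset.prod_dvd_prod_of_subset _ _ (fun p : ℕ => p) hsub
    simpa using this
  have hle := Nat.le_of_dvd (by norm_num) hd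
  have h0 : 0 < m := Nat.pos_of_dvd_of_pos hd (by norm_num)
  interval_cases m <;> simp_all <;> omega

/-- `m ↦ m σ(m)` is injective on squarefree numbers -/
lemma inj_sqf : ∀ m : ℕ, ∀ m' : ℕ, Squarefree m → Squarefree m' → m * sg m = m' * sg m' → m = m' := by
  intro m
  induction m using Nat.strong_induction_on with
  | _ m ih =>
    intro m' hm hm' he
    have hm0 : 0 < m := Nat.pos_of_ne_zero (fun h => by rw [h] at hm; exact not_squarefree_zero hm)
    have hN : m * sg m ≠ 0 := (Nat.mul_pos hm0 (sg_pos hm0)).ne'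
    by_cases hall : ∀ q, q.Prime → q ∣ m * sg m → q ≤ 3
    · have h1 := small hm hall
      have h2 := small hm' (by rw [← he]; exact hall)
      have s1 : sg 1 = 1 := by decide
      have s2 : sg 2 = 3 := by decide
      have s3 : sg 3 = 4 := by decide
      have s6 : sg 6 = 12 := by decide
      rcases h1 with rfl | rfl | rfl | rfl <;> rcases h2 with rfl | rfl | rfl | rfl <;>
        simp_all
    · push Not at hall
      obtain ⟨q, hq, hqd, hq3⟩ := hall
      have hne : (m * sg m).primeFactors.Nonempty := ⟨q, Nat.mem_primeFactors.2 ⟨hq, hqd, hN⟩⟩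
      obtain ⟨P, hPmem, hPmax⟩ := Finset.exists_max_image _ (fun x => x) hne
      rw [Nat.mem_primeFactors] at hPmem
      have hmax : ∀ r, r.Prime → r ∣ m * sg m → r ≤ P := fun r hr hrd =>
        hPmax r (Nat.mem_primeFactors.2 ⟨hr, hrd, hN⟩)
      have hP3 : 3 < P := lt_of_lt_of_le hq3 (hmax q hq hqd)
      have d1 := big_dvd hm hPmem.1 hP3 hPmem.2.1 hmax
      have d2 := big_dvd hm' hPmem.1 hP3 (he ▸ hPmem.2.1) (he ▸ hmax)
      obtain ⟨a, ea, _, ha, sa⟩ := sqf_split hPmem.1 hm d1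
      obtain ⟨b, eb, _, hb, sb⟩ := sqf_split hPmem.1 hm' d2
      have ha0 : 0 < a := Nat.pos_of_ne_zero (fun h => by rw [h] at ha; exact not_squarefree_zero ha)
      have hab : a * sg a = b * sg b := by
        have hpos : 0 < P * (P + 1) := Nat.mul_pos hPmem.1.pos (by omega)
        apply Nat.eq_of_mul_eq_mul_left hpos
        rw [sa, sb, ea, eb] at he
        nlinarith [he]
      have hlt : a < m := by rw [ea]; nlinarith
      have := ih a hlt b ha hb hab
      rw [ea, eb, this]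

lemma decomp (x : ℕ) (hx : 0 < x) : ∃ s m, x = s * m ∧ Nat.Coprime s m ∧ Squarefull s ∧ Squarefree m := by
  induction x using Nat.recOnPosPrimePosCoprime with
  | prime_pow p k hp hk =>
    by_cases h1 : k = 1
    · subst h1
      exact ⟨1, p, by simp, by simp, fun q hq hd => absurd (Nat.dvd_one.1 hd) hq.one_lt.ne', hp.prime.squarefree⟩
    · refine ⟨p ^ k, 1, by simp, by simp, ?_, squarefree_one⟩
      intro q hq hd
      have : q = p := (Nat.prime_dvd_prime_iff_eq hq hp).1 (hq.dvd_of_dvd_pow hd)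
      rw [this]
      exact pow_dvd_pow p (by omega)
  | zero => omega
  | one => exact ⟨1, 1, by simp, by simp, fun q hq hd => absurd (Nat.dvd_one.1 hd) hq.one_lt.ne', squarefree_one⟩
  | coprime a b ha hb hab iha ihb =>
    obtain ⟨s, m, rfl, h1, h2, h3⟩ := iha (by omega)
    obtain ⟨s', m', rfl, h1', h2', h3'⟩ := ihb (by omega)
    have c1 : Nat.Coprime s s' := hab.coprime_dvd_left ⟨m, rfl⟩ |>.coprime_dvd_right ⟨m', rfl⟩
    have c2 : Nat.Coprime s m' := hab.coprime_dvd_left ⟨m, rfl⟩ |>.coprime_dvd_right ⟨s', by ring⟩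
    have c3 : Nat.Coprime m s' := hab.coprime_dvd_left ⟨s, by ring⟩ |>.coprime_dvd_right ⟨m', rfl⟩
    have c4 : Nat.Coprime m m' := hab.coprime_dvd_left ⟨s, by ring⟩ |>.coprime_dvd_right ⟨s', by ring⟩
    refine ⟨s * s', m * m', by ring, ?_, ?_, ?_⟩
    · exact Nat.Coprime.mul_left (Nat.Coprime.mul_right h1 c2) (Nat.Coprime.mul_right c3.symm h1')
    · intro q hq hd
      rcases hq.dvd_mul.1 hd with h | h
      · exact (h2 q hq h).mul_right _
      · exact (h2' q hq h).mul_left _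
    · exact (Nat.squarefree_mul c4).2 ⟨h3, h3'⟩

lemma count_sqfull (n : ℕ) (hn : 0 < n) :
    Set.ncard {s : ℕ | s ∣ n ∧ Squarefull s} ≤ ∏ p ∈ n.primeFactors, n.factorization p := by
  classical
  have hcard : ∏ p ∈ n.primeFactors, n.factorization p =
      (Finset.pi n.primeFactors (fun p => Finset.range (n.factorization p))).card := by
    rw [Finset.card_pi]
    simp
  rw [hcard, ← Set.ncard_coe_finset]
  apply Set.ncard_le_ncard_of_injOn (fun s => fun p (_ : p ∈ n.primeFactors) => s.factorization p - 1)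
    (ht := Finset.finite_toSet _)
  · rintro s ⟨hs, hf⟩
    rw [Finset.mem_coe, Finset.mem_pi]
    intro p hp
    rw [Finset.mem_range]
    have hpp := Nat.prime_of_mem_primeFactors hp
    have h1 : 0 < n.factorization p := hpp.factorization_pos_of_dvd hn.ne' (Nat.dvd_of_mem_primeFactors hp)
    have hs0 : s ≠ 0 := by rintro rfl; simp at hs; omega
    have h2 : s.factorization p ≤ n.factorization p := (Nat.factorization_le_iff_dvd hs0 hn.ne').2 hs p
    omega
  · rintro s ⟨hs, hf⟩ s' ⟨hs', hf'⟩ he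
    have hs0 : s ≠ 0 := by rintro rfl; simp at hs; omega
    have hs0' : s' ≠ 0 := by rintro rfl; simp at hs'; omega
    have hne : ∀ u : ℕ, u ≠ 0 → Squarefull u → ∀ p, p.Prime → u.factorization p ≠ 1 := by
      intro u hu hfu p hp h1
      have hd : p ∣ u := by
        by_contra hnd
        rw [Nat.factorization_eq_zero_of_not_dvd hnd] at h1
        omega
      have := (hp.pow_dvd_iff_le_factorization hu).1 (hfu p hp hd)
      omega
    apply Nat.eq_of_factorization_eq hs0 hs0'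
    intro p
    by_cases hp : p ∈ n.primeFactors
    · have hpp := Nat.prime_of_mem_primeFactors hp
      have h1 := congrFun (congrFun he p) hp
      simp only at h1
      have h2 := hne s hs0 hf p hpp
      have h3 := hne s' hs0' hf' p hpp
      omega
    · have hz : ∀ u, u ∣ n → u.factorization p = 0 := by
        intro u hu
        by_cases hpp : p.Prime
        · apply Nat.factorization_eq_zero_of_not_dvd
          intro hd
          exact hp (Nat.mem_primeFactors.2 ⟨hpp, hd.trans hu, hn.ne'⟩)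
        · exact Nat.factorization_eq_zero_of_not_prime u hpp
      rw [hz s hs, hz s' hs']

lemma le_three_pow (a : ℕ) : (a : ℝ) ≤ (3:ℝ) ^ ((a:ℝ) / 3) := by
  have h1 : (a:ℝ) ^ 3 ≤ (3:ℝ) ^ a := by
    have : a ^ 3 ≤ 3 ^ a := by
      rcases Nat.lt_or_ge a 3 with h | h
      · interval_cases a <;> norm_num
      · induction a, h using Nat.le_induction with
        | base => norm_num
        | succ k hk ih =>
          rw [pow_succ 3 k]
          nlinarith [Nat.mul_le_mul hk hk, Nat.mul_le_mul (Nat.mul_le_mul hk hk) hk]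
    exact_mod_cast this
  have h2 : ((3:ℝ) ^ ((a:ℝ) / 3)) ^ 3 = (3:ℝ) ^ a := by
    rw [← Real.rpow_natCast ((3:ℝ) ^ ((a:ℝ) / 3)) 3, ← Real.rpow_mul (by norm_num)]
    rw [← Real.rpow_natCast 3 a]
    congr 1
    push_cast; ring
  rw [← h2] at h1
  exact le_of_pow_le_pow_left₀ (by norm_num) (by positivity) h1

lemma x_le_two_pow {x : ℝ} (hx : 0 ≤ x) : x ≤ (2:ℝ) ^ x := by
  have h1 : (2:ℝ) ^ x = Real.exp (Real.log 2 * x) := by rw [Real.rpow_def_of_pos (by norm_num)]
  have h2 := Real.add_one_le_exp (Real.log 2 * x - 1)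
  have h3 : (0.5:ℝ) < Real.log 2 := by have := Real.log_two_gt_d9; linarith
  have h4 : Real.exp (Real.log 2 * x) = Real.exp (Real.log 2 * x - 1) * Real.exp 1 := by
    rw [← Real.exp_add]; congr 1; ring
  have h5 : (2:ℝ) ≤ Real.exp 1 := by have := Real.add_one_le_exp (1:ℝ); linarith
  rw [h1, h4]
  have h6 : Real.log 2 * x ≤ Real.exp (Real.log 2 * x - 1) := by linarith
  nlinarith [Real.exp_pos (Real.log 2 * x - 1)]

theorem wig (n : ℕ) (hn : 0 < n) (δ : ℝ) (h0 : 0 < δ) (h1 : δ ≤ 1) :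
    ((∏ p ∈ n.primeFactors, n.factorization p : ℕ) : ℝ) ≤
      (n:ℝ) ^ δ * (1 / δ) ^ (⌈(3:ℝ) ^ (1 / (3 * δ))⌉₊) := by
  classical
  set T : ℝ := (3:ℝ) ^ (1 / (3 * δ)) with hT
  have hn' : (n:ℝ) ^ δ = ∏ p ∈ n.primeFactors, ((p:ℝ) ^ (n.factorization p)) ^ δ := by
    rw [Real.finset_prod_rpow _ _ (fun p _ => by positivity)]
    congr 1
    have := Nat.factorization_prod_pow_eq_self hn.ne'
    conv_lhs => rw [← this]
    rw [Finsupp.prod, Nat.support_factorization]
    push_cast
    rfl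
  have hone : (1:ℝ) ≤ 1 / δ := by rw [le_div_iff₀ h0]; linarith
  have hterm : ∀ p ∈ n.primeFactors, (n.factorization p : ℝ) ≤
      ((p:ℝ) ^ (n.factorization p)) ^ δ * (if (p:ℝ) < T then 1 / δ else 1) := by
    intro p hp
    have hpp := Nat.prime_of_mem_primeFactors hp
    have hp2 : (2:ℝ) ≤ p := by exact_mod_cast hpp.two_le
    set a := n.factorization p
    have e : ((p:ℝ) ^ a) ^ δ = (p:ℝ) ^ (δ * a) := by
      rw [← Real.rpow_natCast, ← Real.rpow_mul (by positivity)]; congr 1; ring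
    rw [e]
    split_ifs with hlt
    · have h3 := x_le_two_pow (x := δ * a) (by positivity)
      have h4 : (2:ℝ) ^ (δ * a) ≤ (p:ℝ) ^ (δ * a) := Real.rpow_le_rpow (by norm_num) hp2 (by positivity)
      rw [mul_one_div, le_div_iff₀ h0]
      linarith
    · push Not at hlt
      rw [mul_one]
      calc (a:ℝ) ≤ (3:ℝ) ^ ((a:ℝ) / 3) := le_three_pow a
        _ = T ^ (δ * a) := by
            rw [hT, ← Real.rpow_mul (by norm_num)]; congr 1; field_simp
        _ ≤ (p:ℝ) ^ (δ * a) := Real.rpow_le_rpow (by positivity) hlt (by positivity)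
  push_cast
  calc ∏ p ∈ n.primeFactors, (n.factorization p : ℝ)
      ≤ ∏ p ∈ n.primeFactors, (((p:ℝ) ^ (n.factorization p)) ^ δ * (if (p:ℝ) < T then 1 / δ else 1)) :=
        Finset.prod_le_prod (fun _ _ => Nat.cast_nonneg _) hterm
    _ = (n:ℝ) ^ δ * ∏ p ∈ n.primeFactors, (if (p:ℝ) < T then 1 / δ else 1) := by
        rw [Finset.prod_mul_distrib, ← hn']
    _ ≤ (n:ℝ) ^ δ * (1 / δ) ^ (⌈T⌉₊) := by
        apply mul_le_mul_of_nonneg_left _ (by positivity)
        rw [← Finset.prod_filter, Finset.prod_const]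
        apply pow_le_pow_right₀ hone
        calc _ ≤ (Finset.range ⌈T⌉₊).card := by
              apply Finset.card_le_card
              intro p hp
              rw [Finset.mem_filter] at hp
              rw [Finset.mem_range]
              exact Nat.lt_ceil.2 hp.2
          _ = ⌈T⌉₊ := Finset.card_range _

theorem base :
    (∀ n : ℕ, 0 < n → F n ≤ Set.ncard {s : ℕ | s ∣ n ∧ Squarefull s ∧ s * sg s ∣ n} ∧
        F n ≤ ∏ p ∈ n.primeFactors, n.factorization p) ∧
      (∀ m m' : ℕ, Squarefree m → Squarefree m' → m * sg m = m' * sg m' → m = m') := by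
  refine ⟨?_, inj_sqf⟩
  intro n hn
  suffices hmain : F n ≤ Set.ncard {s : ℕ | s ∣ n ∧ Squarefull s ∧ s * sg s ∣ n} by
    have hfin2 : Set.Finite {s : ℕ | s ∣ n ∧ Squarefull s} := by
      apply Set.Finite.subset (Finset.finite_toSet n.divisors)
      rintro s ⟨h, _⟩
      simp [h, hn.ne']
    have hsub : {s : ℕ | s ∣ n ∧ Squarefull s ∧ s * sg s ∣ n} ⊆ {s : ℕ | s ∣ n ∧ Squarefull s} :=
      fun s hs => ⟨hs.1, hs.2.1⟩
    exact ⟨hmain, hmain.trans ((Set.ncard_le_ncard hsub hfin2).trans (count_sqfull n hn))⟩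
  have hex : ∀ x : ℕ, ∃ s m, 0 < x → x = s * m ∧ Nat.Coprime s m ∧ Squarefull s ∧ Squarefree m := by
    intro x
    by_cases hx : 0 < x
    · obtain ⟨s, m, h⟩ := decomp x hx
      exact ⟨s, m, fun _ => h⟩
    · exact ⟨0, 0, fun h => absurd h hx⟩
  choose S M hSM using hex
  unfold F
  have hfin : Set.Finite {s : ℕ | s ∣ n ∧ Squarefull s ∧ s * sg s ∣ n} := by
    apply Set.Finite.subset (Finset.finite_toSet n.divisors)
    rintro s ⟨h, _⟩
    simp [h, hn.ne']
  apply Set.ncard_le_ncard_of_injOn S (ht := hfin)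
  · rintro x ⟨hx0, hx⟩
    obtain ⟨e, hc, hs, hm⟩ := hSM x hx0
    have e2 : sg x = sg (S x) * sg (M x) := by
      conv_lhs => rw [e]
      exact sg_mul hc
    refine ⟨?_, hs, ?_⟩
    · rw [← hx]
      exact Dvd.dvd.mul_right ⟨M x, e⟩ _
    · refine ⟨M x * sg (M x), ?_⟩
      have e3 : x * sg x = (S x * M x) * (sg (S x) * sg (M x)) := by rw [← e, ← e2]
      rw [← hx, e3]
      ring
  · rintro x ⟨hx0, hx⟩ y ⟨hy0, hy⟩ hxy
    obtain ⟨e, hc, hs, hm⟩ := hSM x hx0
    obtain ⟨e', hc', hs', hm'⟩ := hSM y hy0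
    have e2 : sg x = sg (S x) * sg (M x) := by
      conv_lhs => rw [e]
      exact sg_mul hc
    have e2' : sg y = sg (S y) * sg (M y) := by
      conv_lhs => rw [e']
      exact sg_mul hc'
    have hS0 : 0 < S x := Nat.pos_of_ne_zero (fun h => by rw [h] at e; omega)
    have hpos : 0 < S x * sg (S x) := Nat.mul_pos hS0 (sg_pos hS0)
    have h1 : S x * sg (S x) * (M x * sg (M x)) = n := by
      have e3 : x * sg x = (S x * M x) * (sg (S x) * sg (M x)) := by rw [← e, ← e2]
      rw [← hx, e3]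
      ring
    have h2 : S x * sg (S x) * (M y * sg (M y)) = n := by
      have e3 : y * sg y = (S y * M y) * (sg (S y) * sg (M y)) := by rw [← e', ← e2']
      rw [← hy, e3, hxy]
      ring
    have h3 := Nat.eq_of_mul_eq_mul_left hpos (h1.trans h2.symm)
    have h4 := inj_sqf _ _ hm hm' h3
    rw [e, e', hxy, h4]

/-- with L = log n: ((L^θ+1) * log (log L / c') * log L) / L → 0 for θ<1 -/
lemma asy (θ c' : ℝ) (hθ : θ < 1) (hc : 0 < c') (η : ℝ) (hη : 0 < η) :
    ∀ᶠ L : ℝ in atTop, (L ^ θ + 1) * Real.log (Real.log L / c') ≤ η * L / Real.log L := by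
  -- log L ≤ L^ρ with ρ = (1-θ)/4
  set ρ : ℝ := (1 - max θ 0) / 4 with hρ
  have hm : max θ 0 < 1 := max_lt hθ one_pos
  have hρ0 : 0 < ρ := by rw [hρ]; linarith
  have h1 : ∀ᶠ L : ℝ in atTop, Real.log L ≤ L ^ ρ := by
    have := (isLittleO_log_rpow_atTop hρ0).bound (one_pos)
    filter_upwards [this, eventually_ge_atTop 1] with L hL hL1
    rw [one_mul, Real.norm_of_nonneg (Real.log_nonneg hL1), Real.norm_of_nonneg (by positivity)] at hL
    exact hL
  have h2 : ∀ᶠ L : ℝ in atTop, 1 / c' ≤ L ^ ρ := (tendsto_rpow_atTop hρ0).eventually_ge_atTop _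
  have h3 : ∀ᶠ L : ℝ in atTop, 8 / η ≤ L ^ ρ := (tendsto_rpow_atTop hρ0).eventually_ge_atTop _
  have h4 : ∀ᶠ L : ℝ in atTop, Real.log L > c' := Real.tendsto_log_atTop.eventually_gt_atTop _
  have h4' : ∀ᶠ L : ℝ in atTop, Real.log L > 1 := Real.tendsto_log_atTop.eventually_gt_atTop _
  filter_upwards [h1, h2, h3, h4, h4', eventually_ge_atTop 1] with L h1 h2 h3 h4 h4' hL1
  have hL0 : 0 < L := by linarith
  have hlog : 0 < Real.log L := by linarith
  -- log (log L / c') ≤ log L / c' is too weak; use log(log L/c') ≤ log L + log (1/c') ≤ 2 L^ρ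
  have e1 : Real.log (Real.log L / c') ≤ 2 * L ^ ρ := by
    have hx : Real.log L / c' ≤ L ^ ρ * L ^ ρ := by
      rw [div_eq_mul_one_div]
      exact mul_le_mul h1 h2 (by positivity) (by positivity)
    have hpos : 0 < Real.log L / c' := by positivity
    calc Real.log (Real.log L / c') ≤ Real.log (L ^ ρ * L ^ ρ) := Real.log_le_log hpos hx
      _ = 2 * Real.log (L ^ ρ) := by rw [Real.log_mul (by positivity) (by positivity)]; ring
      _ ≤ 2 * L ^ ρ := by
          have := Real.log_le_sub_one_of_pos (show 0 < L ^ ρ by positivity)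
          linarith
  have e0 : 0 ≤ Real.log (Real.log L / c') := Real.log_nonneg (by rw [le_div_iff₀ hc]; linarith)
  have e2 : L ^ θ + 1 ≤ 2 * L ^ (max θ 0) := by
    have a1 : L ^ θ ≤ L ^ (max θ 0) := Real.rpow_le_rpow_of_exponent_le hL1 (le_max_left _ _)
    have a2 : (1:ℝ) ≤ L ^ (max θ 0) := Real.one_le_rpow hL1 (le_max_right _ _)
    linarith
  rw [le_div_iff₀ hlog]
  have e3 : (L ^ θ + 1) * Real.log (Real.log L / c') * Real.log L ≤ (2 * L ^ (max θ 0)) * (2 * L ^ ρ) * L ^ ρ := by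
    apply mul_le_mul (mul_le_mul e2 e1 e0 (by positivity)) h1 hlog.le (by positivity)
  have e4 : (2 * L ^ (max θ 0)) * (2 * L ^ ρ) * L ^ ρ * L ^ ρ * L ^ ρ = 4 * L := by
    have : L = L ^ (max θ 0 + ρ + ρ + ρ + ρ) := by
      have : max θ 0 + ρ + ρ + ρ + ρ = 1 := by rw [hρ]; ring
      rw [this, Real.rpow_one]
    conv_rhs => rw [this]
    rw [Real.rpow_add hL0, Real.rpow_add hL0, Real.rpow_add hL0, Real.rpow_add hL0]
    ring
  have hη2 : 8 ≤ η * L ^ ρ := by
    rw [div_le_iff₀ hη] at h3; linarith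
  have hone : (1:ℝ) ≤ L ^ ρ := Real.one_le_rpow hL1 hρ0.le
  refine e3.trans ?_
  set A := (2 * L ^ (max θ 0)) * (2 * L ^ ρ) * L ^ ρ with hA
  have hA0 : 0 ≤ A := by positivity
  have : A * L ^ ρ ≤ A * L ^ ρ * L ^ ρ := by
    nlinarith [mul_nonneg hA0 (sub_nonneg.2 hone), mul_nonneg (mul_nonneg hA0 (le_of_lt (lt_of_lt_of_le one_pos hone))) (sub_nonneg.2 hone)]
  -- 8 * A ≤ η * A * L^ρ ≤ η * 4 L
  have k1 : A * 8 ≤ A * (η * L ^ ρ) := mul_le_mul_of_nonneg_left hη2 hA0
  have k2 : A * L ^ ρ ≤ 4 * L := by linarith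
  have k3 := mul_le_mul_of_nonneg_left k2 hη.le
  nlinarith

end Pool.Agent.Results.MP_253cbc_nt.WigertConstant

open Pool.Agent.Results.MP_253cbc_nt.WigertConstant in
/-- For every `c > (ln 3) / 3`, `F(n) < n ^ (c / ln ln n)` for all large `n` (with `≤`). -/
theorem Pool.Agent.Results.MP_253cbc_nt.WigertConstant.result (c : ℝ) (hc : Real.log 3 / 3 < c) :
    ∃ n₀ : ℕ, ∀ n : ℕ, n₀ ≤ n → (F n : ℝ) ≤ (n : ℝ) ^ (c / Real.log (Real.log n)) := by
  have hl3 : 0 < Real.log 3 := Real.log_pos (by norm_num)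
  obtain ⟨c', hc'⟩ : ∃ c', c' = (c + Real.log 3 / 3) / 2 := ⟨_, rfl⟩
  have hc0 : 0 < c' := by rw [hc']; linarith
  have hcc : Real.log 3 / 3 < c' := by rw [hc']; linarith
  have hθ : Real.log 3 / (3 * c') < 1 := by rw [div_lt_one (by positivity)]; linarith
  have hη : 0 < c - c' := by rw [hc']; linarith
  have hlim : Tendsto (fun n : ℕ => Real.log (n:ℝ)) atTop atTop :=
    Real.tendsto_log_atTop.comp tendsto_natCast_atTop_atTop
  have ev1 := hlim.eventually (asy (Real.log 3 / (3 * c')) c' hθ hc0 (c - c') hη)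
  have ev2 := (Real.tendsto_log_atTop.comp hlim).eventually_gt_atTop c'
  have ev3 := hlim.eventually_gt_atTop 1
  have ev := (ev1.and ev2).and (ev3.and (eventually_gt_atTop 0))
  rw [eventually_atTop] at ev
  obtain ⟨n₀, h⟩ := ev
  refine ⟨n₀, fun n hn => ?_⟩
  obtain ⟨⟨h1, h2⟩, h3, h4⟩ := h n hn
  simp only [Function.comp] at h2
  set L := Real.log (n:ℝ) with hL
  have hL0 : 0 < L := by linarith
  have hLL : 0 < Real.log L := by linarith
  have hn0 : (0:ℝ) < n := by exact_mod_cast h4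
  have hδ0 : 0 < c' / Real.log L := by positivity
  have hδ1 : c' / Real.log L ≤ 1 := by rw [div_le_one hLL]; exact h2.le
  have hF := (base.1 n h4).2
  have hW := wig n h4 (c' / Real.log L) hδ0 hδ1
  have hT : (3:ℝ) ^ (1 / (3 * (c' / Real.log L))) = L ^ (Real.log 3 / (3 * c')) := by
    rw [Real.rpow_def_of_pos (by norm_num), Real.rpow_def_of_pos hL0]
    congr 1
    field_simp
  have hinv : 1 / (c' / Real.log L) = Real.log L / c' := by rw [one_div_div]
  rw [hT, hinv] at hW
  have hpos : 0 < Real.log L / c' := by positivity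
  have hlog0 : 0 ≤ Real.log (Real.log L / c') := Real.log_nonneg (by rw [le_div_iff₀ hc0]; linarith)
  have hceil : (⌈L ^ (Real.log 3 / (3 * c'))⌉₊ : ℝ) ≤ L ^ (Real.log 3 / (3 * c')) + 1 :=
    (Nat.ceil_lt_add_one (by positivity)).le
  have hpow : (Real.log L / c') ^ (⌈L ^ (Real.log 3 / (3 * c'))⌉₊) ≤ Real.exp ((c - c') * L / Real.log L) := by
    rw [← Real.rpow_natCast, Real.rpow_def_of_pos hpos, Real.exp_le_exp]
    calc _ = (⌈L ^ (Real.log 3 / (3 * c'))⌉₊ : ℝ) * Real.log (Real.log L / c') := by ring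
      _ ≤ (L ^ (Real.log 3 / (3 * c')) + 1) * Real.log (Real.log L / c') :=
          mul_le_mul_of_nonneg_right hceil hlog0
      _ ≤ _ := h1
  have hfin : (n:ℝ) ^ (c / Real.log L) = (n:ℝ) ^ (c' / Real.log L) * Real.exp ((c - c') * L / Real.log L) := by
    rw [Real.rpow_def_of_pos hn0, Real.rpow_def_of_pos hn0, ← Real.exp_add]
    congr 1
    rw [← hL]
    field_simp
    ring
  rw [hfin]
  calc (F n : ℝ) ≤ ((∏ p ∈ n.primeFactors, n.factorization p : ℕ) : ℝ) := by exact_mod_cast hF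
    _ ≤ _ := hW
    _ ≤ _ := mul_le_mul_of_nonneg_left hpow (by positivity)
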